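import Mathlib
import Pool.Agent.Q288.IQN.Final

/-! # Instability of interference queueing networks at and above the critical rate -/

set_option autoImplicit false

namespace Pool.Agent.Results.MP_87e9f0_pr.Unstable

open Filter Topology Q288.IQN

/-- For every interference sequence `a` on `ℤ^d` and every arrival rate `lam ≥ 1 / ∑_j a_j`, the
interference queueing network is unstable. (The first part says that the probabilities of the
events `x_i(t) ≥ w i` for all `i ∈ W` in the boxes `[-n, n]^d` are nondecreasing in `n`, so that the
supremum `tail` which describes the infinite network is their limit.) -/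
theorem result (d : ℕ) (a : Site d → ℝ) (ha : IsInterference a) (lam : ℝ)
    (hlam : 1 / ∑ᶠ j, a j ≤ lam) :
    (∀ t : ℝ, 0 ≤ t → ∀ (W : Finset (Site d)) (w : Site d → ℕ),
      Monotone (boxTail a lam t W w) ∧
        Tendsto (boxTail a lam t W w) atTop (𝓝 (tail a lam t W w))) ∧
    ¬ Stable a lam := by
  have hA : 0 < ∑ᶠ j, a j := by
    have h1 := AB_le ha {0} (0 : Site d)
    have h2 : AB a {0} (0 : Site d) = 1 := by simp [AB, ha.zero]
    linarith
  have hl : 0 < lam := lt_of_lt_of_le (by positivity) hlam
  have h1 : 1 ≤ lam * ∑ᶠ i, a i := by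
    rwa [div_le_iff₀ hA] at hlam
  refine ⟨fun t ht W w => ?_, unstable ha hl h1⟩
  have hm := boxTail_mono ha hl ht W w
  exact ⟨hm, tendsto_atTop_iSup hm⟩

end Pool.Agent.Results.MP_87e9f0_pr.Unstable
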